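import Mathlib
import Pool.Agent.K7.H53.MA.Out

/-!
# Finite groups with alternating composition factors occur over `F_p(X)`, for all primes `p`

The definitions of the composition factors (`FactorA p`) and of the epimorphisms (`Step p π`) are in
the file `Pool/Agent/K7/H53/MA/Defs.lean`:

* `FactorA p T`: the group `T` is isomorphic to an alternating group `A_n` with `n ≥ 5`, `n ≠ 6`, or
  `Factor p T` holds, i.e. it has order `p`, or is one of the simple groups in characteristic `p`
  described in the file `Pool/Agent/Y60/DCF/Defs.lean` (`PSL_2(p^k)`, `k` odd if `p ≠ 2`,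
  `PSL_n(p^k)`, `n` prime to `p^k - 1`, `PSp_2n(p^k)`, ...).
* `CompIn (FactorA p) N` (file `Pool/Agent/Y60/DC/Def.lean`): `N` has a finite composition series all
  of whose factors are of this kind.
* `Step p π`: the homomorphism `π : W' → W` of groups is surjective with a finite kernel, and
  `CompIn (FactorA p) (ker π)` holds (`π` may be split or not), or `π` is split with an abelian kernel.

There is no condition on `p`: it may be `2` or `3`, or divide the orders of the groups.

The proof of the alternating case: for `N` odd and a polynomial `P = ∏ (X - x_i)` of degree `N` with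
roots which generate a twisted form of the `N`-th power of the affine line, Mestre's partner `R` of `P`
is used, `R = ∑ c_j ∏_{i ≠ j} (X - x_i)` with `c_j` the `j`-th diagonal element of the adjugate of the
matrix `1 / (x_i - x_j)`. The discriminants of `P - T R` and of `P` are equal up to a square (in
characteristic two, the two étale quadratic algebras are equal; this is proved with Witt vectors), and
`R` is, up to a factor, the partner of `P - T R`, too. It follows that the roots of `P - T R` are
algebraically independent, that the group of `P - T R` over `k(x, T)` is normalised by all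
permutations, and that it is the alternating group.
-/

set_option autoImplicit false

open Pool.Agent.Y60.DC (CompIn)
open Pool.Agent.K7.H53.MA (FactorA Step)

namespace Pool.Agent.Results.MP_7f581e_nt.AlternatingFactors

/-- `G` occurs over `F`: it is the Galois group of a finite Galois extension of `F`. -/
def Occurs (F G : Type) [Field F] [Group G] : Prop :=
  ∃ (L : Type) (_ : Field L) (_ : Algebra F L),
    FiniteDimensional F L ∧ IsGalois F L ∧ Nonempty ((L ≃ₐ[F] L) ≃* G)

/-- `G` occurs regularly over `K`: it is the Galois group of a finite Galois extension of `K(t)` in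
which `K` is algebraically closed. -/
def OccursRegularly (K G : Type) [Field K] [Group G] : Prop :=
  ∃ (F : Type) (_ : Field F) (_ : Algebra (RatFunc K) F) (_ : Algebra K F)
    (_ : IsScalarTower K (RatFunc K) F) (_ : FiniteDimensional (RatFunc K) F)
    (_ : IsGalois (RatFunc K) F),
    Nonempty ((F ≃ₐ[RatFunc K] F) ≃* G) ∧
    ∀ y : F, IsAlgebraic K y → y ∈ Set.range (algebraMap K F)

/-- `K` is Hilbertian (in the form used in frozen statement S03429). -/
def Hilbertian (K : Type) [Field K] : Prop :=
  ∀ (f : Polynomial (Polynomial K)), f.Monic → Irreducible f →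
    (f.map (algebraMap (Polynomial K) (FractionRing (Polynomial K)))).Separable →
    ∀ g : Polynomial K, g ≠ 0 →
      ∃ a : K, g.eval a ≠ 0 ∧ Irreducible (f.map (Polynomial.evalRingHom a))

/-- The embedding problem `α : E → Gal(L/K)` has a regular solution over `K(t)`: there are a finite
Galois extension `F` of `K(t)` containing `L`, with `L` algebraically closed in `F`, and an
isomorphism `γ` of `Gal(F/K(t))` with `E` such that `σ` acts on `L` as `α (γ σ)`. -/
def RegularSolution (K L E : Type) [Field K] [Field L] [Algebra K L] [Group E]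
    (α : E →* (L ≃ₐ[K] L)) : Prop :=
  ∃ (F : Type) (_ : Field F) (_ : Algebra (RatFunc K) F) (_ : Algebra L F)
    (_ : Algebra K F) (_ : IsScalarTower K (RatFunc K) F) (_ : IsScalarTower K L F)
    (_ : FiniteDimensional (RatFunc K) F) (_ : IsGalois (RatFunc K) F)
    (γ : (F ≃ₐ[RatFunc K] F) ≃* E),
    (∀ (σ : F ≃ₐ[RatFunc K] F) (x : L), σ (algebraMap L F x) = algebraMap L F (α (γ σ) x)) ∧
    ∀ y : F, IsAlgebraic L y → y ∈ Set.range (algebraMap L F)

/-- The embedding problem `α : E → Gal(L/K)` has a proper solution: there are a finite Galois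
extension `F` of `K` containing `L` and an isomorphism `γ` of `Gal(F/K)` with `E` such that
`α (γ σ)` is the restriction of `σ` to `L`. -/
def ProperSolution (K L E : Type) [Field K] [Field L] [Algebra K L] [Normal K L] [Group E]
    (α : E →* (L ≃ₐ[K] L)) : Prop :=
  ∃ (F : Type) (_ : Field F) (_ : Algebra K F) (_ : Algebra L F) (_ : IsScalarTower K L F),
    FiniteDimensional K F ∧ IsGalois K F ∧
    ∃ γ : (F ≃ₐ[K] F) ≃* E, ∀ σ : F ≃ₐ[K] F, α (γ σ) = σ.restrictNormal L

/-- The inverse limit of the sequence `W 0 ← W 1 ← W 2 ← ...`: the group of all sequences `x` with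
`p i (x (i + 1)) = x i`. -/
abbrev InvLim {W : ℕ → Type} [∀ i, Group (W i)] (p : ∀ i, W (i + 1) →* W i) : Subgroup (∀ i, W i) :=
  Pool.Agent.TH15.IGP.Lim p

/-- The defining property of the inverse limit. -/
theorem mem_invLim {W : ℕ → Type} [∀ i, Group (W i)] (p : ∀ i, W (i + 1) →* W i)
    (x : ∀ i, W i) : x ∈ InvLim p ↔ ∀ i, p i (x (i + 1)) = x i := Iff.rfl

/-- The finite Galois extension `L` of `K` is contained in a Galois extension `F` of `K` whose group
is the inverse limit of the `W i`: there is an isomorphism `γ` of `Gal(F/K)` with the inverse limit,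
all of whose components are continuous (have open kernel), such that the action on `L` is
`σ ↦ e₀ (component of γ σ in W 0)`. -/
def OccursAbove (K L : Type) [Field K] [Field L] [Algebra K L] {W : ℕ → Type} [∀ i, Group (W i)]
    (p : ∀ i, W (i + 1) →* W i) (e₀ : W 0 ≃* (L ≃ₐ[K] L)) : Prop :=
  ∃ (F : Type) (_ : Field F) (_ : Algebra K F) (_ : Algebra L F) (_ : IsScalarTower K L F)
    (_ : IsGalois K F) (γ : (F ≃ₐ[K] F) ≃* InvLim p),
    (∀ i, IsOpen {σ : F ≃ₐ[K] F | (γ σ).1 i = 1}) ∧
    ∀ (σ : F ≃ₐ[K] F) (x : L), σ (algebraMap L F x) = algebraMap L F (e₀ ((γ σ).1 0) x)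

/-- **Alternating composition factors.**  Let `p` be a prime number.
1. Let `κ` be a finite field of characteristic `p`, and let `π : G' → G` be an epimorphism with a
   finite kernel all of whose composition factors are alternating groups `A_n`, `n ≥ 5`, `n ≠ 6`, or
   satisfy `Factor p` (or let `π` be split with a finite abelian kernel). If `G` occurs over `κ(X)`,
   then `G'` occurs over `κ(X)`.
2. If all composition factors of the finite group `G` are of this kind, then `G` occurs over
   `F_p(X)`, and it occurs regularly over every field of characteristic `p`.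
3. All embedding problems `α : E → Gal(L/K)` of this kind over a field `K` of characteristic `p`
   have regular solutions over `K(t)`, and they have proper solutions if `K` is Hilbertian.
4. Every finite Galois extension `L` of `κ(X)` is contained in a Galois extension of `κ(X)` whose
   group is the inverse limit of any given sequence `Gal(L/κ(X)) = W 0 ← W 1 ← W 2 ← ...` of
   epimorphisms of this kind. -/
theorem result (p : ℕ) [Fact p.Prime] :
    (∀ (κ : Type) [Field κ] [Finite κ] [CharP κ p] (G G' : Type) [Group G] [Group G']
      (π : G' →* G), Step p π → Occurs (RatFunc κ) G → Occurs (RatFunc κ) G') ∧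
    (∀ (G : Type) [Group G] [Finite G], CompIn (FactorA p) G →
      Occurs (RatFunc (ZMod p)) G ∧
      ∀ (K : Type) [Field K] [CharP K p], OccursRegularly K G) ∧
    (∀ (K L E : Type) [Field K] [CharP K p] [Field L] [Algebra K L] [FiniteDimensional K L]
      [IsGalois K L] [Group E] (α : E →* (L ≃ₐ[K] L)), Step p α →
      RegularSolution K L E α ∧ (Hilbertian K → ProperSolution K L E α)) ∧
    ∀ (κ : Type) [Field κ] [Finite κ] [CharP κ p]
      (L : Type) [Field L] [Algebra (RatFunc κ) L]
      [FiniteDimensional (RatFunc κ) L] [IsGalois (RatFunc κ) L]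
      (W : ℕ → Type) [∀ i, Group (W i)] (e₀ : W 0 ≃* (L ≃ₐ[RatFunc κ] L))
      (π : ∀ i, W (i + 1) →* W i), (∀ i, Step p (π i)) →
      OccursAbove (RatFunc κ) L π e₀ := by
  refine ⟨?_, ?_, ?_, ?_⟩
  · intro κ _ _ _ G G' _ _ π h hq
    exact Pool.Agent.K7.H53.MA.extend p κ G G' π h hq
  · intro G _ _ h
    refine ⟨?_, fun K _ _ => Pool.Agent.K7.H53.MA.regular_of p G h K⟩
    exact Pool.Agent.K7.H53.MA.occurs_of p G h
  · intro K L E _ _ _ _ _ _ _ α h
    exact ⟨Pool.Agent.K7.H53.MA.reg_all p K L E α h,
      fun hK => Pool.Agent.K7.H53.MA.proper_hilb p K L E α h hK⟩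
  · intro κ _ _ _ L _ _ _ _ W _ e₀ π hπ
    exact Pool.Agent.K7.H53.MA.stepA_ratFunc p κ W π (fun i => (hπ i).toA p _) L e₀

end Pool.Agent.Results.MP_7f581e_nt.AlternatingFactors
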