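import Mathlib
import Pool.Agent.K7.H53.CE.Out

/-!
# Embedding problems over `F_p(X)` whose kernels are central extensions

In the theorems `AlternatingFactors` and `DoubleCovers` the kernels of order prime to `p` which are
not products of simple groups are either abelian and split, or powers of the double covers of
alternating groups, split too. Here the kernels are arbitrary (non-split) central extensions of
groups whose composition factors are alternating groups, `PSL_2(q)`, `PSL_n(q)`, ...

The file `Pool/Agent/K7/H53/CE/Defs.lean` contains the definitions: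
* `FactorZ p c T`: `T` is a group of order `p`, or `A_n` (`n ≥ 5`, `n ≠ 6`; `n = 7` only if `p = 3` or
  `c` is prime to `3`), or `PSL_2(F)` (`F` a field with `p ^ k ≥ 4` elements, `k` odd if `p ≠ 2`), or
  `PSL_n(F)` (`F` a finite field of characteristic `p`, `n ≥ 3` prime to `|F| - 1`), or another
  simple group which is allowed in `AlternatingFactors` and has no central extensions of order prime
  to `p`.
* `CentralKernel p π`, `π : E → W`: `π` is a surjective homomorphism of finite groups, and
  `P ≤ Z ≤ ker π` are normal subgroups of `E`, `P` a `p`-group, `Z / P` in the centre of `E / P`,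
  `gcd(|Z|, |W|)` a power of `p`, such that all composition factors of `ker π / Z` are allowed.
* `CentralGroup p G`: `P ≤ Z ≤ N` are normal subgroups of the finite group `G`, `P` a `p`-group,
  `Z / P` in the centre of `G / P`, `G / N` commutative, such that all composition factors of `N / Z`
  are allowed (there is no condition on the orders of `Z` and `G / N`).
* `BuiltZ p G`: the class of groups generated by these groups, by the epimorphisms `π : G' → G` with
  `CentralKernel p π` and those of `AlternatingFactors` and `DoubleCovers`, and by quotients.

Sketch of the proof. (1) The Schur multipliers: it is proved (in `Univ`, `Carm`, `Odd`, `Prod`) that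
central extensions of `A_n` by groups of order prime to `p` are quotients of the double cover (for
`n = 7` if `3` does not divide the order; `n ≠ 6`), and (in `SL2`, `SLn`) that all central extensions
of `SL_n(F)` by groups of order prime to `p` split. For `SL_n`, `n ≥ 3`, this is done by a transport
of the vectors of `F^n` with elements of the maximal unipotent subgroups, which have unique lifts of
`p`-power order. (2) Let `A` be a minimal normal subgroup of `W` with `A = T^k`, `T` not abelian, and
let `W' → W` be central of order prime to `p`. Then `W'` is a quotient of a central product of a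
central extension of `T^k` and the centraliser; the complement of `Inn T` in `Aut T` makes the
extension split up to a group of smaller order. Induction on the order.
-/

set_option autoImplicit false

open Pool.Agent.K7.H53.CE (CentralKernel BuiltZ)

namespace Pool.Agent.Results.MP_7f581e_nt.CentralExtensions

/-- `G` occurs over `F`: it is the Galois group of a finite Galois extension of `F`. -/
def Occurs (F G : Type) [Field F] [Group G] : Prop :=
  ∃ (L : Type) (_ : Field L) (_ : Algebra F L),
    FiniteDimensional F L ∧ IsGalois F L ∧ Nonempty ((L ≃ₐ[F] L) ≃* G)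

/-- `G` occurs regularly over `K`: it is the Galois group of a finite Galois extension of `K(t)` in
which `K` is algebraically closed. -/
def OccursRegularly (K G : Type) [Field K] [Group G] : Prop :=
  ∃ (F : Type) (_ : Field F) (_ : Algebra (RatFunc K) F) (_ : Algebra K F)
    (_ : IsScalarTower K (RatFunc K) F) (_ : FiniteDimensional (RatFunc K) F)
    (_ : IsGalois (RatFunc K) F),
    Nonempty ((F ≃ₐ[RatFunc K] F) ≃* G) ∧
    ∀ y : F, IsAlgebraic K y → y ∈ Set.range (algebraMap K F)

/-- `K` is Hilbertian (in the form used in frozen statement S03429). -/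
def Hilbertian (K : Type) [Field K] : Prop :=
  ∀ (f : Polynomial (Polynomial K)), f.Monic → Irreducible f →
    (f.map (algebraMap (Polynomial K) (FractionRing (Polynomial K)))).Separable →
    ∀ g : Polynomial K, g ≠ 0 →
      ∃ a : K, g.eval a ≠ 0 ∧ Irreducible (f.map (Polynomial.evalRingHom a))

/-- The embedding problem `α : E → Gal(L/K)` has a regular solution over `K(t)`: there are a finite
Galois extension `F` of `K(t)` containing `L`, with `L` algebraically closed in `F`, and an
isomorphism `γ` of `Gal(F/K(t))` with `E` such that `σ` acts on `L` as `α (γ σ)`. -/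
def RegularSolution (K L E : Type) [Field K] [Field L] [Algebra K L] [Group E]
    (α : E →* (L ≃ₐ[K] L)) : Prop :=
  ∃ (F : Type) (_ : Field F) (_ : Algebra (RatFunc K) F) (_ : Algebra L F)
    (_ : Algebra K F) (_ : IsScalarTower K (RatFunc K) F) (_ : IsScalarTower K L F)
    (_ : FiniteDimensional (RatFunc K) F) (_ : IsGalois (RatFunc K) F)
    (γ : (F ≃ₐ[RatFunc K] F) ≃* E),
    (∀ (σ : F ≃ₐ[RatFunc K] F) (x : L), σ (algebraMap L F x) = algebraMap L F (α (γ σ) x)) ∧
    ∀ y : F, IsAlgebraic L y → y ∈ Set.range (algebraMap L F)

/-- The embedding problem `α : E → Gal(L/K)` has a proper solution: there are a finite Galois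
extension `F` of `K` containing `L` and an isomorphism `γ` of `Gal(F/K)` with `E` such that
`α (γ σ)` is the restriction of `σ` to `L`. -/
def ProperSolution (K L E : Type) [Field K] [Field L] [Algebra K L] [Normal K L] [Group E]
    (α : E →* (L ≃ₐ[K] L)) : Prop :=
  ∃ (F : Type) (_ : Field F) (_ : Algebra K F) (_ : Algebra L F) (_ : IsScalarTower K L F),
    FiniteDimensional K F ∧ IsGalois K F ∧
    ∃ γ : (F ≃ₐ[K] F) ≃* E, ∀ σ : F ≃ₐ[K] F, α (γ σ) = σ.restrictNormal L

/-- **Central extensions.**  Let `p` be a prime number.
1. Let `κ` be a finite field of characteristic `p`, and let `π : G' → G` be a homomorphism with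
   `CentralKernel p π`. If `G` occurs over `κ(X)`, then `G'` occurs over `κ(X)`.
2. If `BuiltZ p G` (for example, if `CentralGroup p G`), then `G` is finite and occurs over
   `F_p(X)`, and it occurs regularly over every field of characteristic `p`.
3. Example: all finite central extensions of `S_n` and of `A_n`, `n ≥ 5`, `n ≠ 6`, where for `n = 7`
   and `p ≠ 3` the order of the kernel is not divisible by `3`, satisfy `BuiltZ p G`.
4. All embedding problems `α : E → Gal(L/K)` with `CentralKernel p α` over a field `K` of
   characteristic `p` have regular solutions over `K(t)`, and they have proper solutions if `K` is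
   Hilbertian. -/
theorem result (p : ℕ) [Fact p.Prime] :
    (∀ (κ : Type) [Field κ] [Finite κ] [CharP κ p] (G G' : Type) [Group G] [Group G']
      (π : G' →* G), CentralKernel p π → Occurs (RatFunc κ) G → Occurs (RatFunc κ) G') ∧
    (∀ (G : Type) [Group G], BuiltZ p G →
      Finite G ∧ Occurs (RatFunc (ZMod p)) G ∧
      ∀ (K : Type) [Field K] [CharP K p], OccursRegularly K G) ∧
    (∀ (n : ℕ), 5 ≤ n → n ≠ 6 → ∀ (G : Type) [Group G] [Finite G],
      (∀ f : G →* Equiv.Perm (Fin n), Function.Surjective f → f.ker ≤ Subgroup.center G →
        (n = 7 → p = 3 ∨ ¬ 3 ∣ Nat.card f.ker) → BuiltZ p G) ∧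
      (∀ f : G →* alternatingGroup (Fin n), Function.Surjective f →
        f.ker ≤ Subgroup.center G → (n = 7 → p = 3 ∨ ¬ 3 ∣ Nat.card f.ker) → BuiltZ p G)) ∧
    ∀ (K L E : Type) [Field K] [CharP K p] [Field L] [Algebra K L] [FiniteDimensional K L]
      [IsGalois K L] [Group E] (α : E →* (L ≃ₐ[K] L)), CentralKernel p α →
      RegularSolution K L E α ∧ (Hilbertian K → ProperSolution K L E α) := by
  refine ⟨?_, ?_, ?_, ?_⟩
  · intro κ _ _ _ G G' _ _ π h hq
    exact Pool.Agent.K7.H53.CE.CentralKernel.extend κ G G' π h hq
  · intro G _ h
    exact ⟨h.good.1, h.good.occurs (ZMod p), fun K _ _ => h.good.regular K⟩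
  · intro n h5 h6 G _ _
    refine ⟨fun f hs hc h7 => ?_, fun f hs hc h7 => ?_⟩
    · exact BuiltZ.group G (Pool.Agent.K7.H53.CE.centralGroup_symm n h5 h6 G f hs hc h7)
    · exact BuiltZ.group G (Pool.Agent.K7.H53.CE.centralGroup_altn n h5 h6 G f hs hc h7)
  · intro K L E _ _ _ _ _ _ _ α h
    refine ⟨CentralKernel.regSol K L E α h, fun hK => ?_⟩
    exact CentralKernel.proper (Pool.Agent.TH377.IG.spec_hilb hK) L E α h

end Pool.Agent.Results.MP_7f581e_nt.CentralExtensions
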