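import Mathlib
import Pool.Agent.K7.H53.DB.Main

/-!
# Embedding problems over `F_p(X)` with kernels which are powers of double covers of `A_n`, `p ≠ 2`

The double cover of `A_n`, `n ≥ 5`, is realised as the group `TA n (ZMod p)` (file
`Pool/Agent/K7/H53/DB/Defs.lean`): let `II n` be an index set with `n + 1` or `n + 2` elements (an even
number) which contains `{1, ..., n}`, and let `CC (II n) (ZMod p)` (file `Pool/Agent/K7/H53/DB/CC.lean`)
be the Clifford algebra over `F_p` with generators `e_i` and relations `e_i ^ 2 = 1`,
`e_i e_j = - e_j e_i`. `TA n (ZMod p)` is the group of all units `w` with `w' w = 1` (`w'` is the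
reversal of `w`) for which there is an even permutation `π` of `{1, ..., n}` with
`w e_i = e_(π i) w` for all `i`. By part 1 of the theorem, it is a perfect group with a central subgroup
of order two whose quotient is `A_n` (there is only one such group up to isomorphism).

The epimorphisms `StepD p π` and the groups `Built p G` are defined in the file
`Pool/Agent/K7/H53/DB/Step.lean`:
* `StepD p π`, `π : W' → W`: `π` is one of the epimorphisms of the theorem `AlternatingFactors`
  (`Step p π`: the kernel is finite and its composition factors are alternating groups `A_n`,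
  `n ≥ 5`, `n ≠ 6`, groups of order `p` or certain classical groups in characteristic `p`; or `π` is
  split with a finite abelian kernel), or `π` is the projection of `T^k ⋊ W`, where `T` is the
  double cover of `A_n`, `n ≥ 5`, `n ≠ 6`, and `W` acts through any homomorphism
  `W → Aut(T) ≀ S_k`, or `T` is the double cover of `A_6` and `W` acts through a homomorphism
  `W → T ≀ S_k`.
* `Built p G`: the group `G` is obtained from the trivial group by such epimorphisms (from `W` to
  `W'`) and by passing to quotient groups.

There is no condition on `p` and `n` besides `p ≠ 2`; `p` may divide the orders of the groups. (For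
`p = 2` the kernels `T^k` are covered by `AlternatingFactors`.)

Sketch of the proof. Let `P = ∏ (X - x_i)` be a polynomial of odd degree with the partner `R`
(as in `AlternatingFactors`), and let `ξ_i` be the roots of `P - T R`. There is an explicit orthogonal
matrix `A`, `A_ij = c_j P_j(ξ_i) / S(ξ_i)`, with `P_j = P / (X - x_j)`, `S = ∑ c_j P_j`, where
`(c_j)` is in the kernel of the matrix `1 / (x_i - x_j)`, and `σ A_ij = A_(b i, a j)` for all
automorphisms `σ` with `σ x_j = x_(a j)`, `σ ξ_i = ξ_(b i)`. Let `f_j = ∑_i A_ij e_i`, and let `u` be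
an element of the Clifford algebra with `f_j u = u e_j`, `u' u = 1`. Then `σ u` is equal to `u` up to
factors which are lifts of `a` and `b`, and this determines the homomorphism to `T ⋊ Gal(L/K)`.
-/

set_option autoImplicit false

open Pool.Agent.K7.H53.DB (TA IsDoubleCover StepD Built)

namespace Pool.Agent.Results.MP_7f581e_nt.DoubleCovers

/-- `G` occurs over `F`: it is the Galois group of a finite Galois extension of `F`. -/
def Occurs (F G : Type) [Field F] [Group G] : Prop :=
  ∃ (L : Type) (_ : Field L) (_ : Algebra F L),
    FiniteDimensional F L ∧ IsGalois F L ∧ Nonempty ((L ≃ₐ[F] L) ≃* G)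

/-- `G` occurs regularly over `K`: it is the Galois group of a finite Galois extension of `K(t)` in
which `K` is algebraically closed. -/
def OccursRegularly (K G : Type) [Field K] [Group G] : Prop :=
  ∃ (F : Type) (_ : Field F) (_ : Algebra (RatFunc K) F) (_ : Algebra K F)
    (_ : IsScalarTower K (RatFunc K) F) (_ : FiniteDimensional (RatFunc K) F)
    (_ : IsGalois (RatFunc K) F),
    Nonempty ((F ≃ₐ[RatFunc K] F) ≃* G) ∧
    ∀ y : F, IsAlgebraic K y → y ∈ Set.range (algebraMap K F)

/-- `K` is Hilbertian (in the form used in frozen statement S03429). -/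
def Hilbertian (K : Type) [Field K] : Prop :=
  ∀ (f : Polynomial (Polynomial K)), f.Monic → Irreducible f →
    (f.map (algebraMap (Polynomial K) (FractionRing (Polynomial K)))).Separable →
    ∀ g : Polynomial K, g ≠ 0 →
      ∃ a : K, g.eval a ≠ 0 ∧ Irreducible (f.map (Polynomial.evalRingHom a))

/-- The embedding problem `α : E → Gal(L/K)` has a regular solution over `K(t)`: there are a finite
Galois extension `F` of `K(t)` containing `L`, with `L` algebraically closed in `F`, and an
isomorphism `γ` of `Gal(F/K(t))` with `E` such that `σ` acts on `L` as `α (γ σ)`. -/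
def RegularSolution (K L E : Type) [Field K] [Field L] [Algebra K L] [Group E]
    (α : E →* (L ≃ₐ[K] L)) : Prop :=
  ∃ (F : Type) (_ : Field F) (_ : Algebra (RatFunc K) F) (_ : Algebra L F)
    (_ : Algebra K F) (_ : IsScalarTower K (RatFunc K) F) (_ : IsScalarTower K L F)
    (_ : FiniteDimensional (RatFunc K) F) (_ : IsGalois (RatFunc K) F)
    (γ : (F ≃ₐ[RatFunc K] F) ≃* E),
    (∀ (σ : F ≃ₐ[RatFunc K] F) (x : L), σ (algebraMap L F x) = algebraMap L F (α (γ σ) x)) ∧
    ∀ y : F, IsAlgebraic L y → y ∈ Set.range (algebraMap L F)

/-- The embedding problem `α : E → Gal(L/K)` has a proper solution: there are a finite Galois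
extension `F` of `K` containing `L` and an isomorphism `γ` of `Gal(F/K)` with `E` such that
`α (γ σ)` is the restriction of `σ` to `L`. -/
def ProperSolution (K L E : Type) [Field K] [Field L] [Algebra K L] [Normal K L] [Group E]
    (α : E →* (L ≃ₐ[K] L)) : Prop :=
  ∃ (F : Type) (_ : Field F) (_ : Algebra K F) (_ : Algebra L F) (_ : IsScalarTower K L F),
    FiniteDimensional K F ∧ IsGalois K F ∧
    ∃ γ : (F ≃ₐ[K] F) ≃* E, ∀ σ : F ≃ₐ[K] F, α (γ σ) = σ.restrictNormal L

/-- **Double covers of alternating groups.**  Let `p` be an odd prime number.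
1. For `n ≥ 5`, the group `TA n (ZMod p)` is the double cover of `A_n`: it is finite and perfect and has
   a central subgroup of order two whose quotient is `A_n`.
2. Let `κ` be a finite field of characteristic `p`, and let `π : G' → G` be a homomorphism with
   `StepD p π` (for example, the projection `T^k ⋊ G → G`, where `T` is the double cover of `A_n`, `n ≥ 5`,
   `n ≠ 6`, and `G` acts through any homomorphism `G → Aut(T) ≀ S_k`). If `G` occurs over `κ(X)`,
   then `G'` occurs over `κ(X)`.
3. If `Built p G`, then `G` is finite and occurs over `F_p(X)`, and it occurs regularly over every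
   field of characteristic `p`.
4. All embedding problems `α : E → Gal(L/K)` with `StepD p α` over a field `K` of characteristic
   `p` have regular solutions over `K(t)`, and they have proper solutions if `K` is Hilbertian. -/
theorem result (p : ℕ) [Fact p.Prime] (hp : p ≠ 2) :
    (∀ n : ℕ, 5 ≤ n → IsDoubleCover n (TA n (ZMod p))) ∧
    (∀ (κ : Type) [Field κ] [Finite κ] [CharP κ p] (G G' : Type) [Group G] [Group G']
      (π : G' →* G), StepD p π → Occurs (RatFunc κ) G → Occurs (RatFunc κ) G') ∧
    (∀ (G : Type) [Group G], Built p G →
      Finite G ∧ Occurs (RatFunc (ZMod p)) G ∧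
      ∀ (K : Type) [Field K] [CharP K p], OccursRegularly K G) ∧
    ∀ (K L E : Type) [Field K] [CharP K p] [Field L] [Algebra K L] [FiniteDimensional K L]
      [IsGalois K L] [Group E] (α : E →* (L ≃ₐ[K] L)), StepD p α →
      RegularSolution K L E α ∧ (Hilbertian K → ProperSolution K L E α) := by
  refine ⟨?_, ?_, ?_, ?_⟩
  · intro n h5
    exact Pool.Agent.K7.H53.DB.isDoubleCover p hp n h5
  · intro κ _ _ _ G G' _ _ π h hq
    exact Pool.Agent.K7.H53.DB.extendB p hp κ G G' π h hq
  · intro G _ h
    exact ⟨h.finite p hp, h.occurs p hp (ZMod p), fun K _ _ => h.regular p hp K⟩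
  · intro K L E _ _ _ _ _ _ _ α h
    refine ⟨(Pool.Agent.K7.H53.DB.stepB_one p hp K L E α (h.toB p K)).2, fun hK => ?_⟩
    exact Pool.Agent.K7.H53.DB.stepB_spec_one p hp (Pool.Agent.TH377.IG.spec_hilb hK) L E α
      (h.toB p K)

end Pool.Agent.Results.MP_7f581e_nt.DoubleCovers
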