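import Mathlib
import Pool.Agent.K7.H53.LD.Points

/-!
# Embedding problems over `F_p(X)` with kernels of Lie type

The file `Pool/Agent/K7/H53/LD/Defs.lean` contains the definitions:
* `Geometric p c`: `N` is the group of fixed points `t ∘ φ = θ ∘ t` in the group of points
  `t : A → F` of a connected affine group scheme with coordinate ring `A` (a finitely generated
  commutative Hopf algebra over the field with `p` elements which is a domain with a purely
  transcendental field of fractions), with values in a finite product `F` of finite fields, where `φ`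
  and `θ` are endomorphisms whose `m`-th powers are the Frobenius maps `a ↦ a ^ p`; the group `B` acts
  on `N` by `c` through automorphisms of `A` and `F`. The case that `F` is a finite field and `φ`, `θ`
  are the Frobenius maps: `N = G(F)`. For special isogenies `φ`, `m = 2`: Suzuki and Ree groups.
* `FactorL p T`: the simple groups of `AlternatingFactors` and the simple groups `T` which are
  quotients of a group `N` as above, such that the inner automorphisms of `T` have a complement in
  `Aut T` which comes from a geometric action on `N`.
* `LieStep p π`: `π` is split with kernel `N^k`, and the action is geometric.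
* `CentralKernelL p π`, `CentralGroupL p G`: as in `CentralExtensions`, with the new simple groups.
* `StepL p π`, `BuiltL p G`: the classes of homomorphisms and groups generated by these and those
  of the earlier theorems `AlternatingFactors` and `CentralExtensions`.

By classical facts, which are not formalised here, `FactorL p T` holds if `T` is one of the simple
groups `E_8(q)`, `E_7(q)` (`q` even), `F_4(q)`, `G_2(q)`, `Sp_4(q)` (`q` even), `Sz(q)`, `²G_2(q)`,
`²F_4(q)`, `q` a power of `p`: the split groups are rational varieties, and all outer automorphisms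
are induced by automorphisms of `F` (in the cases of `Sp_4(2^k)`, `F_4(2^k)`, `G_2(3^k)` one takes
`F = F_q × F_q`, `θ (a, b) = (b, a ^ p)`, and a special isogeny `φ`).

The proof: let `g = (g_c)` be a generic family of points with values in an algebraically closed field
`U`, indexed by the homomorphisms `c : F → U`, and `h = Φ(g) g⁻¹`, where `Φ` is given by `φ` and
`θ`. The set of automorphisms of `U` over `K(h)` which fix the values of all `c` has finite orbits on
the values of `g`; so these values are algebraic over `K(h)`, and by a count (with Noether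
normalisation) the coordinates of `h` are algebraically independent. By Speiser's lemma the field
generated by the coordinates of `h`, twisted by the Galois group of `L/K`, is purely transcendental.
-/

set_option autoImplicit false

open Pool.Agent.K7.H53.LD (StepL BuiltL Geometric Rational mulPt)

namespace Pool.Agent.Results.MP_7f581e_nt.LieTypeFactors

/-- `G` occurs over `F`: it is the Galois group of a finite Galois extension of `F`. -/
def Occurs (F G : Type) [Field F] [Group G] : Prop :=
  ∃ (L : Type) (_ : Field L) (_ : Algebra F L),
    FiniteDimensional F L ∧ IsGalois F L ∧ Nonempty ((L ≃ₐ[F] L) ≃* G)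

/-- `G` occurs regularly over `K`: it is the Galois group of a finite Galois extension of `K(t)` in
which `K` is algebraically closed. -/
def OccursRegularly (K G : Type) [Field K] [Group G] : Prop :=
  ∃ (F : Type) (_ : Field F) (_ : Algebra (RatFunc K) F) (_ : Algebra K F)
    (_ : IsScalarTower K (RatFunc K) F) (_ : FiniteDimensional (RatFunc K) F)
    (_ : IsGalois (RatFunc K) F),
    Nonempty ((F ≃ₐ[RatFunc K] F) ≃* G) ∧
    ∀ y : F, IsAlgebraic K y → y ∈ Set.range (algebraMap K F)

/-- `K` is Hilbertian (in the form used in frozen statement S03429). -/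
def Hilbertian (K : Type) [Field K] : Prop :=
  ∀ (f : Polynomial (Polynomial K)), f.Monic → Irreducible f →
    (f.map (algebraMap (Polynomial K) (FractionRing (Polynomial K)))).Separable →
    ∀ g : Polynomial K, g ≠ 0 →
      ∃ a : K, g.eval a ≠ 0 ∧ Irreducible (f.map (Polynomial.evalRingHom a))

/-- The embedding problem `α : E → Gal(L/K)` has a regular solution over `K(t)`: there are a finite
Galois extension `F` of `K(t)` containing `L`, with `L` algebraically closed in `F`, and an
isomorphism `γ` of `Gal(F/K(t))` with `E` such that `σ` acts on `L` as `α (γ σ)`. -/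
def RegularSolution (K L E : Type) [Field K] [Field L] [Algebra K L] [Group E]
    (α : E →* (L ≃ₐ[K] L)) : Prop :=
  ∃ (F : Type) (_ : Field F) (_ : Algebra (RatFunc K) F) (_ : Algebra L F)
    (_ : Algebra K F) (_ : IsScalarTower K (RatFunc K) F) (_ : IsScalarTower K L F)
    (_ : FiniteDimensional (RatFunc K) F) (_ : IsGalois (RatFunc K) F)
    (γ : (F ≃ₐ[RatFunc K] F) ≃* E),
    (∀ (σ : F ≃ₐ[RatFunc K] F) (x : L), σ (algebraMap L F x) = algebraMap L F (α (γ σ) x)) ∧
    ∀ y : F, IsAlgebraic L y → y ∈ Set.range (algebraMap L F)

/-- The embedding problem `α : E → Gal(L/K)` has a proper solution: there are a finite Galois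
extension `F` of `K` containing `L` and an isomorphism `γ` of `Gal(F/K)` with `E` such that
`α (γ σ)` is the restriction of `σ` to `L`. -/
def ProperSolution (K L E : Type) [Field K] [Field L] [Algebra K L] [Normal K L] [Group E]
    (α : E →* (L ≃ₐ[K] L)) : Prop :=
  ∃ (F : Type) (_ : Field F) (_ : Algebra K F) (_ : Algebra L F) (_ : IsScalarTower K L F),
    FiniteDimensional K F ∧ IsGalois K F ∧
    ∃ γ : (F ≃ₐ[K] F) ≃* E, ∀ σ : F ≃ₐ[K] F, α (γ σ) = σ.restrictNormal L

/-- The inverse limit of the sequence `W 0 ← W 1 ← W 2 ← ...`: the group of all sequences `x` with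
`p i (x (i + 1)) = x i`. -/
abbrev InvLim {W : ℕ → Type} [∀ i, Group (W i)] (p : ∀ i, W (i + 1) →* W i) : Subgroup (∀ i, W i) :=
  Pool.Agent.TH15.IGP.Lim p

/-- The defining property of the inverse limit. -/
theorem mem_invLim {W : ℕ → Type} [∀ i, Group (W i)] (p : ∀ i, W (i + 1) →* W i)
    (x : ∀ i, W i) : x ∈ InvLim p ↔ ∀ i, p i (x (i + 1)) = x i := Iff.rfl

/-- The finite Galois extension `L` of `K` is contained in a Galois extension `F` of `K` whose group
is the inverse limit of the `W i`: there is an isomorphism `γ` of `Gal(F/K)` with the inverse limit,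
all of whose components are continuous (have open kernel), such that the action on `L` is
`σ ↦ e₀ (component of γ σ in W 0)`. -/
def OccursAbove (K L : Type) [Field K] [Field L] [Algebra K L] {W : ℕ → Type} [∀ i, Group (W i)]
    (p : ∀ i, W (i + 1) →* W i) (e₀ : W 0 ≃* (L ≃ₐ[K] L)) : Prop :=
  ∃ (F : Type) (_ : Field F) (_ : Algebra K F) (_ : Algebra L F) (_ : IsScalarTower K L F)
    (_ : IsGalois K F) (γ : (F ≃ₐ[K] F) ≃* InvLim p),
    (∀ i, IsOpen {σ : F ≃ₐ[K] F | (γ σ).1 i = 1}) ∧
    ∀ (σ : F ≃ₐ[K] F) (x : L), σ (algebraMap L F x) = algebraMap L F (e₀ ((γ σ).1 0) x)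

/-- The split embedding problem `N ⋊ Gal(L/K) → Gal(L/K)`, where `Gal(L/K)` acts on `N` by `χ`, has a
regular solution over `K(t)`. -/
def SplitRegular {K L N : Type} [Field K] [Field L] [Algebra K L] [Group N]
    (χ : (L ≃ₐ[K] L) →* MulAut N) : Prop :=
  RegularSolution K L (N ⋊[χ] (L ≃ₐ[K] L)) SemidirectProduct.rightHom

/-- `τ` is an isomorphism of the group `N` with the group `G(F)` of all homomorphisms `A → F`. -/
def IsPoints {k A F N : Type} [Field k] [CommRing A] [HopfAlgebra k A] [CommRing F] [Algebra k F]
    [Group N] (τ : N → (A →ₐ[k] F)) : Prop :=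
  Function.Bijective τ ∧ ∀ n n' : N, τ (n * n') = mulPt (τ n) (τ n')

/-- Part 5 of the theorem: if the group `B` acts geometrically on `N` by `c`, then, for all finite
Galois extensions `L/K` of fields of characteristic `p` and all homomorphisms `β : Gal(L/K) → B`, the
split embedding problem `N ⋊ Gal(L/K) → Gal(L/K)`, where `γ` acts by `c (β γ)`, has a regular
solution over `K(t)`. -/
def GeometricKernels (p : ℕ) [Fact p.Prime] : Prop :=
  ∀ (N B : Type) [Group N] [Group B] (c : B →* MulAut N), Geometric p c →
    ∀ (K L : Type) [Field K] [CharP K p] [Field L] [Algebra K L] [FiniteDimensional K L]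
      [IsGalois K L] (β : (L ≃ₐ[K] L) →* B), SplitRegular (c.comp β)

/-- Part 6 of the theorem, for the coordinate ring `A` of a group scheme `G`: if `F` is a finite field
of characteristic `p` and the group `B` acts on `N = G(F)` through a homomorphism
`ψ : B → Gal(F/F_p)`, then the action is geometric (so part 5 applies). -/
def PointKernels (p : ℕ) [Fact p.Prime] (A : Type) [CommRing A] [HopfAlgebra (ZMod p) A] : Prop :=
  ∀ (F : Type) [Field F] [Finite F] [Algebra (ZMod p) F] (N B : Type) [Group N] [Group B]
    (τ : N → (A →ₐ[ZMod p] F)) (c : B →* MulAut N) (ψ : B →* (F ≃ₐ[ZMod p] F)), IsPoints τ →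
    (∀ b n a, τ (c b n) a = ψ b (τ n a)) → Geometric p c

/-- **Kernels of Lie type.**  Let `p` be a prime number.
1. Let `κ` be a finite field of characteristic `p`, and let `π : G' → G` be in the class `StepL`.
   If `G` occurs over `κ(X)`, then `G'` occurs over `κ(X)`.
2. If `BuiltL p G`, then `G` is finite and occurs over `F_p(X)`, and it occurs regularly over every
   field of characteristic `p`.
3. All embedding problems `α : E → Gal(L/K)` in the class `StepL` over a field `K` of characteristic
   `p` have regular solutions over `K(t)`, and they have proper solutions if `K` is Hilbertian.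
4. Every finite Galois extension `L` of `κ(X)` is contained in a Galois extension of `κ(X)` whose
   group is the inverse limit of any given sequence `Gal(L/κ(X)) = W 0 ← W 1 ← W 2 ← ...` of
   epimorphisms in the class `StepL`.
5. Split embedding problems with a geometric action on the kernel have regular solutions.
6. In particular, let `A` be a finitely generated commutative Hopf algebra over the field with `p`
   elements, a domain whose field of fractions is purely transcendental, and let `G` be the group
   scheme with coordinate ring `A`. Then the actions on the groups `G(F)`, `F` a finite field of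
   characteristic `p`, through automorphisms of `F` are geometric. -/
theorem result (p : ℕ) [Fact p.Prime] :
    (∀ (κ : Type) [Field κ] [Finite κ] [CharP κ p] (G G' : Type) [Group G] [Group G']
      (π : G' →* G), StepL p π → Occurs (RatFunc κ) G → Occurs (RatFunc κ) G') ∧
    (∀ (G : Type) [Group G], BuiltL p G →
      Finite G ∧ Occurs (RatFunc (ZMod p)) G ∧
      ∀ (K : Type) [Field K] [CharP K p], OccursRegularly K G) ∧
    (∀ (K L E : Type) [Field K] [CharP K p] [Field L] [Algebra K L] [FiniteDimensional K L]
      [IsGalois K L] [Group E] (α : E →* (L ≃ₐ[K] L)), StepL p α →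
      RegularSolution K L E α ∧ (Hilbertian K → ProperSolution K L E α)) ∧
    (∀ (κ : Type) [Field κ] [Finite κ] [CharP κ p]
      (L : Type) [Field L] [Algebra (RatFunc κ) L]
      [FiniteDimensional (RatFunc κ) L] [IsGalois (RatFunc κ) L]
      (W : ℕ → Type) [∀ i, Group (W i)] (e₀ : W 0 ≃* (L ≃ₐ[RatFunc κ] L))
      (π : ∀ i, W (i + 1) →* W i), (∀ i, StepL p (π i)) →
      OccursAbove (RatFunc κ) L π e₀) ∧
    GeometricKernels p ∧
    ∀ (A : Type) [CommRing A] [IsDomain A] [HopfAlgebra (ZMod p) A] [Algebra.FiniteType (ZMod p) A]
      (I : Type) [Finite I] (x : I → FractionRing A), Rational (ZMod p) x → PointKernels p A := by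
  have h5 : GeometricKernels p := by
    intro N B _ _ c hc K L _ _ _ _ _ _ β
    exact (Pool.Agent.K7.H53.LD.stepL_one p K L _ SemidirectProduct.rightHom
      (StepL.lie _ (Pool.Agent.K7.H53.LD.lieStep_sd hc β (c.comp β) fun _ => rfl))).2
  refine ⟨?_, ?_, ?_, ?_, h5, ?_⟩
  · intro κ _ _ _ G G' _ _ π h hq
    exact Pool.Agent.K7.H53.LD.extendL κ G G' π h hq
  · intro G _ h
    exact ⟨h.good.1, h.good.occurs (ZMod p), fun K _ _ => h.good.regular K⟩
  · intro K L E _ _ _ _ _ _ _ α h
    refine ⟨(Pool.Agent.K7.H53.LD.stepL_one p K L E α h).2, fun hK => ?_⟩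
    exact Pool.Agent.K7.H53.LD.stepL_proper p (Pool.Agent.TH377.IG.spec_hilb hK) L E α h
  · intro κ _ _ _ L _ _ _ _ W _ e₀ π hπ
    exact Pool.Agent.K7.H53.LD.stepL_ratFunc p κ W π hπ L e₀
  · intro A _ _ _ _ I _ x hx F _ _ _ N B _ _ τ c ψ hτ hc
    exact Pool.Agent.K7.H53.LD.geometric_points x hx τ hτ.1 hτ.2 c ψ hc

end Pool.Agent.Results.MP_7f581e_nt.LieTypeFactors
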